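import Pool.Agent.Helper90.ST.Defs
import Pool.Agent.Helper12.ST.KF

set_option autoImplicit false

namespace Pool.Agent.Helper90.ST

section KF

variable {G ι : Type} [Group G] {A : ι → Subgroup G} {S : Subgroup G} {s t : ℕ}

section even

variable {q : ℕ}

theorem even_sq (h : IsKF A S q q) (hq : 1 < q) (hsq : ∀ x : G, x * x ∈ S) (i : ι) :
    ∀ a ∈ A i, a * a = 1 := by
  intro a ha
  exact h.inter_S (by omega) i _ ((A i).mul_mem ha ha) (hsq a)

theorem even_sum_E (h : IsKF A S q q) (hq : 1 < q) [Fintype G] [Fintype ι] {R : Type}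
    [AddCommGroup R] (f : G → R) :
    ∑ x ∈ EE A, f x = (∑ i, ∑ a ∈ SF (A i), f a) - q • f 1 := by
  classical
  have hcι : Fintype.card ι = q + 1 := by
    rw [← Nat.card_eq_fintype_card, h.cardI]
  have hne : Nonempty ι := by
    rw [← Fintype.card_pos_iff]
    omega
  have h1 : ∀ i, ∑ a ∈ SF (A i), f a = ∑ a ∈ (SF (A i)).erase 1, f a + f 1 := fun i =>
    (Finset.sum_erase_add _ _ (by simp)).symm
  have h2 : (EE A).erase 1 = Finset.univ.biUnion (fun i => (SF (A i)).erase 1) := by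
    ext x
    simp only [Finset.mem_erase, mem_EE, Finset.mem_biUnion, Finset.mem_univ, true_and, mem_SF]
    constructor
    · rintro ⟨hx, i, hi⟩
      exact ⟨i, hx, hi⟩
    · rintro ⟨i, hx, hi⟩
      exact ⟨hx, i, hi⟩
  have h3 : ∑ x ∈ EE A, f x = ∑ x ∈ (EE A).erase 1, f x + f 1 := by
    refine (Finset.sum_erase_add _ _ ?_).symm
    obtain ⟨i⟩ := hne
    rw [mem_EE]
    exact ⟨i, (A i).one_mem⟩
  rw [h3, h2, Finset.sum_biUnion, Finset.sum_congr rfl (fun i _ => h1 i), Finset.sum_add_distrib,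
    Finset.sum_const, Finset.card_univ, hcι, succ_nsmul]
  · abel
  · intro i _ j _ hij
    show Disjoint _ _
    rw [Finset.disjoint_left]
    intro a ha hb
    rw [Finset.mem_erase, mem_SF] at ha hb
    exact ha.1 (h.disj hij a ha.2 hb.2)

theorem card_EE (h : IsKF A S q q) (hq : 1 < q) [Fintype G] : (EE A).card = q ^ 2 := by
  classical
  have : Finite ι := h.finite_ι
  have : Fintype ι := Fintype.ofFinite ι
  have h1 := even_sum_E h hq (fun _ => (1 : ℤ))
  simp only [Finset.sum_const, card_SF, h.cardA, Finset.card_univ, nsmul_eq_mul,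
    mul_one, ← Nat.card_eq_fintype_card (α := ι), h.cardI] at h1
  have h2 : ((EE A).card : ℤ) = (q : ℤ) ^ 2 := by
    rw [h1]
    push_cast
    ring
  exact_mod_cast h2

theorem even_transversal (h : IsKF A S q q) (hq : 1 < q) [Fintype G] {R : Type}
    [AddCommGroup R] (f : G → R) :
    ∑ g, f g = ∑ σ ∈ SF S, ∑ x ∈ EE A, f (σ * x) := by
  classical
  have hinj : Set.InjOn (fun p : G × G => p.1 * p.2) ((SF S ×ˢ EE A : Finset (G × G)) : Set (G × G)) := by
    rintro ⟨σ, x⟩ h1 ⟨τ, y⟩ h2 heq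
    rw [Finset.mem_coe, Finset.mem_product, mem_SF, mem_EE] at h1 h2
    obtain ⟨hσ, i, hx⟩ := h1
    obtain ⟨hτ, j, hy⟩ := h2
    simp only at hσ hx hτ hy heq
    have hS : y * x⁻¹ ∈ S := by
      have h3 : y * x⁻¹ = τ⁻¹ * σ := by
        have h4 : y = τ⁻¹ * (σ * x) := by rw [heq]; group
        rw [h4]
        group
      rw [h3]
      exact S.mul_mem (S.inv_mem hτ) hσ
    have hxy : x = y := by
      by_cases hij : j = i
      · subst hij
        have h3 := h.inter_S (by omega) j _ ((A j).mul_mem hy ((A j).inv_mem hx)) hS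
        exact (mul_inv_eq_one.1 h3).symm
      · have h3 := h.K2 j i hij y hy x⁻¹ ((A i).inv_mem hx) hS
        rw [h3, one_mul] at hS
        have h4 := h.inter_S (by omega) i _ ((A i).inv_mem hx) hS
        rw [h3, inv_eq_one.1 h4]
    have hστ : σ = τ := by
      rw [hxy] at heq
      exact mul_right_cancel heq
    rw [hxy, hστ]
  have himg : (SF S ×ˢ EE A).image (fun p : G × G => p.1 * p.2) = Finset.univ := by
    apply Finset.eq_univ_of_card
    rw [Finset.card_image_of_injOn hinj, Finset.card_product, card_SF, h.cardS, card_EE h hq,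
      ← Nat.card_eq_fintype_card, h.cardG]
    ring
  rw [← Finset.sum_product', ← himg, Finset.sum_image hinj]

theorem sum_right_coset (h : IsKF A S q q) [Fintype G] {R : Type} [AddCommGroup R] (f : G → R)
    (x : G) : ∑ σ ∈ SF S, f (x * σ) = ∑ σ ∈ SF S, f (σ * x) := by
  have hN := h.normS
  refine Finset.sum_nbij' (fun σ => x * σ * x⁻¹) (fun σ => x⁻¹ * σ * x) ?_ ?_ ?_ ?_ ?_
  · intro σ hσ
    rw [mem_SF] at hσ ⊢
    exact hN.conj_mem σ hσ x
  · intro σ hσ
    rw [mem_SF] at hσ ⊢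
    have := hN.conj_mem σ hσ x⁻¹
    rwa [inv_inv] at this
  · intro σ _
    group
  · intro σ _
    group
  · intro σ _
    congr 1
    group

theorem even_rds (h : IsKF A S q q) (hq : 1 < q) [Fintype G] {R : Type}
    [AddCommGroup R] (f : G → R) :
    ∑ x ∈ EE A, ∑ y ∈ EE A, f (x * y) = (q ^ 2) • f 1 + q • ((∑ g, f g) - ∑ σ ∈ SF S, f σ) := by
  classical
  have : Finite ι := h.finite_ι
  have : Fintype ι := Fintype.ofFinite ι
  have hE : ∀ F : G → R, ∑ i, ∑ a ∈ SF (A i), F a = ∑ x ∈ EE A, F x + q • F 1 := by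
    intro F
    rw [even_sum_E h hq F]
    abel
  have hmul := h.sum_mul (by omega) (by omega) f
  -- left side
  have hL : ∑ i, ∑ j, ∑ a ∈ SF (A i), ∑ b ∈ SF (A j), f (a * b) =
      ∑ x ∈ EE A, ∑ y ∈ EE A, f (x * y) + q • (∑ x ∈ EE A, f x) +
        q • (∑ y ∈ EE A, f y + q • f 1) := by
    have h1 : ∀ i, ∑ j, ∑ a ∈ SF (A i), ∑ b ∈ SF (A j), f (a * b) =
        ∑ a ∈ SF (A i), (∑ y ∈ EE A, f (a * y) + q • f a) := by
      intro i
      rw [Finset.sum_comm]
      refine Finset.sum_congr rfl (fun a _ => ?_)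
      rw [hE (fun b => f (a * b)), mul_one]
    rw [Finset.sum_congr rfl (fun i _ => h1 i),
      hE (fun a => ∑ y ∈ EE A, f (a * y) + q • f a), Finset.sum_add_distrib, Finset.smul_sum]
    simp only [one_mul]
  have hR : ∑ i, ∑ a ∈ SF (A i), ∑ σ ∈ SF S, f (a * σ) = ∑ g, f g + q • ∑ σ ∈ SF S, f σ := by
    rw [hE (fun a => ∑ σ ∈ SF S, f (a * σ))]
    simp only [one_mul]
    congr 1
    rw [Finset.sum_congr rfl (fun x _ => sum_right_coset h f x), Finset.sum_comm]
    exact (even_transversal h hq f).symm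
  rw [hL, hR, hE f] at hmul
  have h2 : ∑ x ∈ EE A, ∑ y ∈ EE A, f (x * y) =
      ((q + q) • (∑ x ∈ EE A, f x + q • f 1) - (∑ g, f g + q • ∑ σ ∈ SF S, f σ) +
        (q + 1) • ∑ g, f g) - q • (∑ x ∈ EE A, f x) - q • (∑ y ∈ EE A, f y + q • f 1) := by
    rw [← hmul]
    abel
  rw [h2]
  simp only [← natCast_zsmul]
  push_cast
  module

end even

end KF

end Pool.Agent.Helper90.ST
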