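import Pool.Agent.Helper52.NO.Ext

/-!
# A block with a simple quotient has exactly one simple module
-/

set_option autoImplicit false
set_option linter.unusedSectionVars false
open scoped BigOperators MonoidAlgebra
open Classical

namespace Pool.Agent.Helper52.ST

open Pool.Agent.Helper36.NB Pool.Agent.Helper44.S3 Pool.Agent.Helper52.NO

theorem rep_model {k : Type} [Field k] {H : Type} [Group H] {f : MonoidAlgebra k H}
    (S : SimpleQuot f) (m : ℕ) (ρ : Representation k H (Fin m → k)) (hρ : ρ.IsIrreducible)
    (h1 : ρ.asAlgebraHom f = 1) :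
    ∃ Θ : (Fin S.n → k) ≃ₗ[k] (Fin m → k),
      ∀ (g : H) (x : Fin S.n → k), ρ g (Θ x) = Θ (Matrix.toLin' (S.ρ (el k g)) x) := by
  have hne : ∃ v : Fin m → k, v ≠ 0 := by
    by_contra hcon
    push Not at hcon
    obtain ⟨x, y, hxy⟩ := hρ.exists_pair_ne
    apply hxy
    ext v
    rw [hcon v]
    exact ⟨fun _ => y.toSubmodule.zero_mem, fun _ => x.toSubmodule.zero_mem⟩
  have hel : ∀ g, ρ.asAlgebraHom (el k g) = ρ g := by
    intro g
    rw [el, Representation.asAlgebraHom_single_one]
  -- every nonzero vector generates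
  have hgen : ∀ w : Fin m → k, w ≠ 0 → ∀ v, ∃ c, ρ.asAlgebraHom c w = v := by
    intro w hw v
    let U : Subrepresentation ρ :=
      { toSubmodule := LinearMap.range ((LinearMap.applyₗ (R := k) w).comp
          ρ.asAlgebraHom.toLinearMap)
        apply_mem_toSubmodule := by
          rintro g _ ⟨c, rfl⟩
          refine ⟨el k g * c, ?_⟩
          change ρ.asAlgebraHom (el k g * c) w = ρ g (ρ.asAlgebraHom c w)
          rw [map_mul, hel]
          rfl }
    rcases hρ.eq_bot_or_eq_top U with h | h
    · exfalso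
      apply hw
      have h3 : w ∈ U := by
        change w ∈ U.toSubmodule
        refine ⟨1, ?_⟩
        change ρ.asAlgebraHom 1 w = w
        rw [map_one]
        rfl
      rw [h] at h3
      exact (Submodule.mem_bot k).1 h3
    · have h3 : v ∈ U := by
        rw [h]
        exact Submodule.mem_top
      obtain ⟨c, hc⟩ := h3
      exact ⟨c, hc⟩
  have hI : ∀ a, S.ρ a = 0 → ρ.asAlgebraHom a = 0 := by
    intro a ha
    apply LinearMap.ext
    intro v
    rw [LinearMap.zero_apply]
    by_contra hv
    obtain ⟨c, hc⟩ := hgen _ hv v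
    have h2 : S.ρ (c * a) = 0 := by rw [map_mul, ha, mul_zero]
    obtain ⟨N, hN⟩ := S.nil _ h2
    have h3 : ρ.asAlgebraHom (c * a * f) v = v := by
      rw [map_mul, map_mul, h1]
      exact hc
    have h4 : ∀ N, (ρ.asAlgebraHom (c * a * f) ^ N) v = v := by
      intro N
      induction N with
      | zero => rw [pow_zero]; rfl
      | succ N ih =>
        rw [pow_succ]
        change (ρ.asAlgebraHom (c * a * f) ^ N) (ρ.asAlgebraHom (c * a * f) v) = v
        rw [h3, ih]
    have h5 := h4 N
    rw [← map_pow, hN, map_zero, LinearMap.zero_apply] at h5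
    apply hv
    rw [← h5, map_zero]
  have hI' : ∀ a a', S.ρ a = S.ρ a' → ρ.asAlgebraHom a = ρ.asAlgebraHom a' := by
    intro a a' h
    have := hI (a - a') (by rw [map_sub, h, sub_self])
    rwa [map_sub, sub_eq_zero] at this
  choose am ham using fun (p : Fin S.n × Fin S.n) => S.surj (Matrix.single p.1 p.2 (1 : k))
  obtain ⟨v0, hv0⟩ := hne
  have hsum : ∑ i : Fin S.n, ρ.asAlgebraHom (am (i, i)) v0 = v0 := by
    have h2 : ρ.asAlgebraHom (∑ i : Fin S.n, am (i, i)) = ρ.asAlgebraHom 1 := by
      apply hI'
      rw [map_sum, map_one]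
      ext p q
      rw [Matrix.sum_apply]
      simp only [ham, Matrix.single_apply, Matrix.one_apply]
      by_cases hpq : p = q
      · subst hpq
        simp
      · rw [if_neg hpq]
        apply Finset.sum_eq_zero
        intro i _
        rw [if_neg]
        rintro ⟨rfl, h⟩
        exact hpq h
    rw [map_sum, map_one] at h2
    have h3 := LinearMap.congr_fun h2 v0
    rw [LinearMap.sum_apply] at h3
    exact h3
  obtain ⟨i0, hi0⟩ : ∃ i0, ρ.asAlgebraHom (am (i0, i0)) v0 ≠ 0 := by
    by_contra hcon
    push Not at hcon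
    apply hv0
    rw [← hsum]
    exact Finset.sum_eq_zero fun i _ => hcon i
  set e : Fin S.n → (Fin m → k) := fun i => ρ.asAlgebraHom (am (i, i0)) v0 with he
  have hact : ∀ a i, ρ.asAlgebraHom a (e i) = ∑ j, (S.ρ a) j i • e j := by
    intro a i
    have h2 : ρ.asAlgebraHom (a * am (i, i0)) =
        ρ.asAlgebraHom (∑ j, (S.ρ a) j i • am (j, i0)) := by
      apply hI'
      rw [map_mul, map_sum, ham]
      ext p q
      rw [Matrix.sum_apply, Matrix.mul_apply]
      simp only [map_smul, ham, Matrix.smul_apply, Matrix.single_apply, smul_eq_mul]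
      by_cases hq : i0 = q
      · subst hq
        simp
      · simp [hq]
    have h3 := LinearMap.congr_fun h2 v0
    rw [map_mul, map_sum, LinearMap.sum_apply] at h3
    simp only [map_smul, LinearMap.smul_apply] at h3
    exact h3
  let Θ0 : (Fin S.n → k) →ₗ[k] (Fin m → k) :=
    { toFun := fun x => ∑ i, x i • e i
      map_add' := fun x y => by
        simp only [Pi.add_apply, add_smul, Finset.sum_add_distrib]
      map_smul' := fun c x => by
        simp only [Pi.smul_apply, smul_eq_mul, mul_smul, RingHom.id_apply, Finset.smul_sum] }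
  have hΘ0 : ∀ x, Θ0 x = ∑ i, x i • e i := fun x => rfl
  have hint : ∀ a x, ρ.asAlgebraHom a (Θ0 x) = Θ0 (Matrix.toLin' (S.ρ a) x) := by
    intro a x
    rw [hΘ0, hΘ0, map_sum]
    simp only [map_smul, hact, Matrix.toLin'_apply, Matrix.mulVec, dotProduct, Finset.smul_sum,
      Finset.sum_smul, smul_smul]
    rw [Finset.sum_comm]
    refine Finset.sum_congr rfl fun i _ => Finset.sum_congr rfl fun j _ => ?_
    rw [mul_comm]
  have hinj : Function.Injective Θ0 := by
    rw [injective_iff_map_eq_zero]
    intro x hx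
    funext j
    have h2 := hint (am (i0, j)) x
    rw [hx, map_zero, ham, hΘ0] at h2
    have h3 : ∀ i, Matrix.toLin' (Matrix.single i0 j (1 : k)) x i = if i = i0 then x j else 0 := by
      intro i
      rw [Matrix.toLin'_apply, Matrix.mulVec, dotProduct]
      simp only [Matrix.single_apply]
      by_cases hi : i = i0
      · subst hi
        simp
      · rw [if_neg hi]
        apply Finset.sum_eq_zero
        intro q _
        rw [if_neg, zero_mul]
        rintro ⟨h, -⟩
        exact hi h.symm
    simp only [h3, ite_smul, zero_smul, Finset.sum_ite_eq', Finset.mem_univ, if_true] at h2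
    rcases smul_eq_zero.mp h2.symm with h4 | h4
    · exact h4
    · exact absurd h4 hi0
  have hsurj : Function.Surjective Θ0 := by
    intro v
    obtain ⟨c, hc⟩ := hgen (e i0) hi0 v
    refine ⟨Matrix.toLin' (S.ρ c) (Pi.single i0 1), ?_⟩
    rw [← hint, hΘ0]
    have h2 : ∑ i, (Pi.single i0 1 : Fin S.n → k) i • e i = e i0 := by
      rw [Finset.sum_eq_single i0]
      · simp
      · intro i _ hi
        rw [Pi.single_eq_of_ne hi, zero_smul]
      · intro h
        exact absurd (Finset.mem_univ _) h
    rw [h2, hc]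
  refine ⟨LinearEquiv.ofBijective Θ0 ⟨hinj, hsurj⟩, fun g x => ?_⟩
  rw [LinearEquiv.ofBijective_apply, LinearEquiv.ofBijective_apply, ← hint, hel]

theorem oneSimple_of_simpleQuot {k : Type} [Field k] {H : Type} [Group H]
    {f : MonoidAlgebra k H} (S : SimpleQuot f) : OneSimple f := by
  intro m n ρ σ hρ hσ h1 h2
  obtain ⟨A, hA⟩ := rep_model S m ρ hρ h1
  obtain ⟨B, hB⟩ := rep_model S n σ hσ h2
  refine ⟨Representation.Equiv.mk (A.symm.trans B) fun g => ?_⟩
  apply LinearMap.ext
  intro v
  change B (A.symm (ρ g v)) = σ g (B (A.symm v))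
  rw [hB]
  congr 1
  rw [LinearEquiv.symm_apply_eq, ← hA, LinearEquiv.apply_symm_apply]

end Pool.Agent.Helper52.ST
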