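import Pool.Agent.Helper36.ST.Defs
import Pool.Agent.Helper52.ST.One

/-!
# One simple module for extensions by elementary abelian groups
-/

set_option autoImplicit false
set_option linter.unusedSectionVars false
open scoped BigOperators MonoidAlgebra
open Classical

namespace Pool.Agent.Helper52.ST

open Pool.Agent.Helper36.ST Pool.Agent.Helper36.NB Pool.Agent.Helper44.S3
open Pool.Agent.Helper36.NC Pool.Agent.Helper52.NO

/-- A central idempotent such that all irreducible traces are proportional. -/
theorem simpleQuot_of_prop {k : Type} [Field k] [IsAlgClosed k] {N : Type} [Group N] [Finite N]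
    (F : MonoidAlgebra k N) (hF0 : F ≠ 0) (hFF : F * F = F) (hFc : ∀ a, a * F = F * a)
    (w : N → k)
    (hw : ∀ (n : ℕ) (R : MonoidAlgebra k N →ₐ[k] Matrix (Fin n) (Fin n) k), 0 < n →
      Function.Surjective R → R F = 1 → ∃ c : k, ∀ g, (R (el k g)).trace = c * w g) :
    Nonempty (SimpleQuot F) := by
  have hFR : Fintype N := Fintype.ofFinite N
  obtain ⟨m, d, P, hpos, hPs, hPn⟩ := exists_wedd k N
  let R : ∀ i, MonoidAlgebra k N →ₐ[k] Matrix (Fin (d i)) (Fin (d i)) k :=
    fun i => (Pi.evalAlgHom k _ i).comp P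
  have hR : ∀ i a, R i a = P a i := fun i a => rfl
  have hRs : ∀ i, Function.Surjective (R i) := by
    intro i x
    obtain ⟨a, ha⟩ := hPs (Function.update 0 i x)
    refine ⟨a, ?_⟩
    rw [hR, ha, Function.update_self]
  have h01 : ∀ i, P F i = 0 ∨ P F i = 1 := by
    intro i
    apply central_idem (hpos i)
    · rw [← Pi.mul_apply, ← map_mul, hFF]
    · intro Y
      obtain ⟨a, ha⟩ := hRs i Y
      rw [← ha, hR, ← Pi.mul_apply, ← Pi.mul_apply, ← map_mul, ← map_mul, hFc]
  have hex : ∃ i, P F i = 1 := by
    by_contra hno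
    push Not at hno
    apply hF0
    apply idem_nil hFF
    apply hPn
    funext i
    rcases h01 i with h0 | h1
    · exact h0
    · exact absurd h1 (hno i)
  have hW : ∀ i, P F i = 1 → ∃ c : k, ∀ x : MonoidAlgebra k N,
      (P x i).trace = c * ∑ g : N, x.coeff g * w g := by
    intro i hi
    obtain ⟨c, hc⟩ := hw (d i) (R i) (hpos i) (hRs i) hi
    refine ⟨c, fun x => ?_⟩
    have h1 : x = ∑ g : N, x.coeff g • el k g := by
      ext g
      rw [MonoidAlgebra.coeff_sum, Finset.sum_apply', Finset.sum_eq_single g]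
      · rw [MonoidAlgebra.coeff_smul, Finsupp.smul_apply, el_coeff, if_pos rfl, smul_eq_mul, mul_one]
      · intro g' _ hg'
        rw [MonoidAlgebra.coeff_smul, Finsupp.smul_apply, el_coeff, if_neg hg', smul_zero]
      · intro h
        exact absurd (Finset.mem_univ _) h
    have h2 : (P x i).trace = (R i x).trace := rfl
    rw [h2]
    conv_lhs => rw [h1]
    rw [map_sum, Matrix.trace_sum, Finset.mul_sum]
    refine Finset.sum_congr rfl fun g _ => ?_
    rw [map_smul, Matrix.trace_smul, hc g, smul_eq_mul]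
    ring
  obtain ⟨i, hi⟩ := hex
  have huniq : ∀ j, j ≠ i → P F j = 0 := by
    intro j hj
    rcases h01 j with h0 | h1
    · exact h0
    exfalso
    obtain ⟨x, hx⟩ := hPs (Function.update 0 i (Matrix.single ⟨0, hpos i⟩ ⟨0, hpos i⟩ 1))
    obtain ⟨y, hy⟩ := hPs (Function.update 0 j (Matrix.single ⟨0, hpos j⟩ ⟨0, hpos j⟩ 1))
    obtain ⟨c, hc⟩ := hW i hi
    obtain ⟨c', hc'⟩ := hW j h1
    have hxi : (P x i).trace = 1 := by
      rw [hx, Function.update_self, Matrix.trace_single_eq_same]
    have hxj : (P x j).trace = 0 := by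
      rw [hx, Function.update_of_ne hj, Pi.zero_apply, Matrix.trace_zero]
    have hyj : (P y j).trace = 1 := by
      rw [hy, Function.update_self, Matrix.trace_single_eq_same]
    rw [hc] at hxi
    rw [hc'] at hxj hyj
    have h2 : (∑ g : N, x.coeff g * w g) ≠ 0 := by
      intro h
      rw [h, mul_zero] at hxi
      exact zero_ne_one hxi
    have h3 : c' = 0 := by
      rcases mul_eq_zero.mp hxj with h | h
      · exact h
      · exact absurd h h2
    rw [h3, zero_mul] at hyj
    exact zero_ne_one hyj
  exact ⟨{ n := d i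
           ρ := R i
           pos := hpos i
           surj := hRs i
           one := hi
           nil := by
             intro a ha
             have ha' : P a i = 0 := ha
             apply hPn
             funext j
             rw [map_mul, Pi.mul_apply]
             by_cases hj : j = i
             · subst hj
               rw [ha', zero_mul, Pi.zero_apply]
             · rw [huniq j hj, mul_zero, Pi.zero_apply] }⟩

section basics

variable {k : Type} [Field k] {N : Type} [Group N] [Finite N] {H : Subgroup N}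

theorem incl_res_of_supp (x : MonoidAlgebra k N) (hx : ∀ g, g ∉ H → x.coeff g = 0) :
    incl k H (res H x) = x := by
  ext g
  by_cases hg : g ∈ H
  · have h1 := incl_coeff H (res H x) ⟨g, hg⟩
    simp only at h1
    rw [h1, res_coeff]
  · rw [incl_supp H _ hg, hx g hg]

/-- The support of a product. -/
theorem supp_mul (hH : H.Normal) {x y : N} {a b : MonoidAlgebra k N}
    (ha : ∀ g, g * x⁻¹ ∉ H → a.coeff g = 0) (hb : ∀ g, g * y⁻¹ ∉ H → b.coeff g = 0) :
    ∀ g, g * (x * y)⁻¹ ∉ H → (a * b).coeff g = 0 := by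
  have hFN : Fintype N := Fintype.ofFinite N
  intro g hg
  rw [coeff_mul_all]
  apply Finset.sum_eq_zero
  intro z _
  by_cases hz : z * x⁻¹ ∈ H
  · by_cases hz' : z⁻¹ * g * y⁻¹ ∈ H
    · exfalso
      apply hg
      have h1 := H.mul_mem hz (hH.conj_mem _ hz' x)
      have h2 : z * x⁻¹ * (x * (z⁻¹ * g * y⁻¹) * x⁻¹) = g * (x * y)⁻¹ := by group
      rwa [h2] at h1
    · rw [hb _ hz', mul_zero]
  · rw [ha _ hz, zero_mul]

theorem supp_el (x : N) : ∀ g, g * x⁻¹ ∉ H → (el k x).coeff g = 0 := by
  intro g hg
  rw [el_coeff, if_neg]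
  rintro rfl
  apply hg
  rw [mul_inv_cancel]
  exact H.one_mem

theorem supp_incl (z : MonoidAlgebra k H) : ∀ g, g * (1 : N)⁻¹ ∉ H → (incl k H z).coeff g = 0 := by
  intro g hg
  rw [inv_one, mul_one] at hg
  exact incl_supp H z hg

theorem comm_incl (a : MonoidAlgebra k N) (ha : ∀ h ∈ H, el k h * a = a * el k h)
    (z : MonoidAlgebra k H) : incl k H z * a = a * incl k H z := by
  induction z using MonoidAlgebra.induction_linear with
  | zero => rw [map_zero, zero_mul, mul_zero]
  | add x y hx hy => rw [map_add, add_mul, mul_add, hx, hy]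
  | single h r =>
    have h1 : (MonoidAlgebra.single h r : MonoidAlgebra k H) = r • el k h := by
      simp [el]
    rw [h1, incl_smul, incl_el, smul_mul_assoc, mul_smul_comm, ha h h.2]

variable {b : MonoidAlgebra k H} (hF : ∀ g : N, cj g (incl k H b) = incl k H b)

include hF

theorem F_central (a : MonoidAlgebra k N) : a * incl k H b = incl k H b * a := by
  induction a using MonoidAlgebra.induction_linear with
  | zero => simp
  | add x y hx hy => rw [add_mul, mul_add, hx, hy]
  | single g r =>
    have h1 : (MonoidAlgebra.single g r : MonoidAlgebra k N) = r • el k g := by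
      simp [el]
    rw [h1, smul_mul_assoc, mul_smul_comm, (cj_eq_iff g _).mp (hF g)]

/-- The element `x F` is in `k[H] u`. -/
theorem el_mul_F (hH : H.Normal) {x : N} {u u' : MonoidAlgebra k N}
    (hu : UC H (incl k H b) x u u') :
    ∃ z : MonoidAlgebra k H, el k x * incl k H b = incl k H z * u := by
  refine ⟨res H (el k x * u'), ?_⟩
  have h1 := supp_mul hH (supp_el (k := k) (H := H) x)
    (y := x⁻¹) (b := u') (by rw [inv_inv]; exact hu.supp')
  rw [incl_res_of_supp, mul_assoc, hu.mul']
  intro g hg
  apply h1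
  rwa [mul_inv_cancel, inv_one, mul_one]

end basics

/-- SimpleQuot version for 2-groups. -/
theorem simple_even {k : Type} [Field k] [IsAlgClosed k] [CharP k 2] {N : Type} [Group N]
    [Finite N] {H : Subgroup N} (hH : H.Normal) (b : MonoidAlgebra k H) (hb : b * b = b)
    (hbc : ∀ a, a * b = b * a) (Sb : SimpleQuot b) (hF : ∀ g : N, cj g (incl k H b) = incl k H b)
    (hodd : ∀ x : N, Odd (orderOf x) → x ∈ H) :
    Nonempty (SimpleQuot (incl k H b)) := by
  have hker : IsPGroup 2 H.subtype.ker := by
    rw [Subgroup.ker_subtype]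
    exact IsPGroup.of_bot
  obtain ⟨f, T, hf, ⟨Sf⟩, hfb, hfT⟩ := ext H.subtype hker
    (by
      intro z hz c
      rw [Subgroup.ker_subtype, Subgroup.mem_bot] at hz
      rw [hz, one_mul, mul_one])
    (by rw [Subgroup.range_subtype]; exact hH)
    (by
      intro r hr
      rw [Subgroup.range_subtype]
      exact hodd r hr) b (block_of_simpleQuot Sb hb hbc) Sb
  have h0 : MonoidAlgebra.mapDomain H.subtype b = incl k H b := rfl
  rw [h0] at hfb hfT
  have hFF : incl k H b * incl k H b = incl k H b := by rw [← map_mul, hb]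
  have h1 : f = T.card • incl k H b := by
    rw [hfT, ← Finset.sum_const]
    refine Finset.sum_congr rfl fun r _ => ?_
    exact hF r
  have h2 : f = incl k H b := by
    rw [h1, smul_mul_assoc, hFF] at hfb
    rw [h1, hfb]
  rw [← h2]
  exact ⟨Sf⟩

theorem one_simple_even {k : Type} [Field k] [IsAlgClosed k] [CharP k 2] {N : Type} [Group N]
    [Finite N] {H : Subgroup N} (hH : H.Normal) (b : MonoidAlgebra k H) (hb : b * b = b)
    (hbc : ∀ a, a * b = b * a) (Sb : SimpleQuot b) (hF : ∀ g : N, cj g (incl k H b) = incl k H b)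
    (hU : ∀ x : N, ∃ u u', UC H (incl k H b) x u u')
    (hcomm : ∀ x y : N, x * y * x⁻¹ * y⁻¹ ∈ H) (hpow : ∀ x : N, x ^ 2 ∈ H) :
    OneSimple (incl k H b) := by
  obtain ⟨S⟩ := simple_even hH b hb hbc Sb hF (by
    intro x hx
    obtain ⟨m, hm⟩ := hx
    have h2 : x ^ (2 * m + 1) = 1 := by rw [← hm, pow_orderOf_eq_one]
    have h3 : x = ((x ^ 2) ^ m)⁻¹ := by
      rw [eq_inv_iff_mul_eq_one, ← pow_mul, ← pow_succ']
      exact h2
    rw [h3]
    exact H.inv_mem (H.pow_mem (hpow x) m))
  exact oneSimple_of_simpleQuot S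

end Pool.Agent.Helper52.ST
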