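import Pool.Agent.Helper52.ST.Odd

/-!
# Coset elements act as scalars
-/

set_option autoImplicit false
set_option linter.unusedSectionVars false
open scoped BigOperators MonoidAlgebra
open Classical

namespace Pool.Agent.Helper52.ST

open Pool.Agent.Helper36.ST Pool.Agent.Helper36.NB Pool.Agent.Helper44.S3
open Pool.Agent.Helper36.NC Pool.Agent.Helper52.NO

/-- A central element whose `p`-th power is the identity on the block `f` acts as a scalar. -/
theorem scalar_of_pow {k : Type} [Field k] [IsAlgClosed k] [CharP k 2] {N : Type} [Group N]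
    {p : ℕ} (hp : p.Prime) (hp2 : p ≠ 2) (f : MonoidAlgebra k N) (hf : IsBlock f)
    (w : MonoidAlgebra k N) (hw : ∀ a, a * w = w * a) (hwp : w ^ p * f = f) :
    ∃ ζ : k, w * f = ζ • f := by
  have hp0 : 0 < p := hp.pos
  have hpk : (p : k) = 1 := by
    have hodd : Odd p := hp.odd_of_ne_two hp2
    obtain ⟨m, hm⟩ := hodd
    rw [hm, Nat.cast_add, Nat.cast_mul, Nat.cast_ofNat, CharTwo.two_eq_zero, zero_mul, zero_add,
      Nat.cast_one]
  obtain ⟨ω, hω⟩ : ∃ ω : k, IsPrimitiveRoot ω p := by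
    have h1 : NeZero (p : k) := ⟨by rw [hpk]; exact one_ne_zero⟩
    have h2 : NeZero p := ⟨hp0.ne'⟩
    exact HasEnoughRootsOfUnity.exists_primitiveRoot k p
  obtain ⟨hf0, hff, hfc, hfp⟩ := hf
  let E : k → MonoidAlgebra k N := fun ζ => ∑ t ∈ Finset.range p, ζ ^ t • (w ^ t * f)
  have hE : ∀ ζ, E ζ = ∑ t ∈ Finset.range p, ζ ^ t • (w ^ t * f) := fun ζ => rfl
  have hwt : ∀ (t : ℕ) a, a * w ^ t = w ^ t * a := by
    intro t a
    exact (show Commute a w from hw a).pow_right t
  have hEc : ∀ ζ a, a * E ζ = E ζ * a := by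
    intro ζ a
    rw [hE, Finset.mul_sum, Finset.sum_mul]
    apply Finset.sum_congr rfl
    intro t _
    rw [mul_smul_comm, smul_mul_assoc, ← mul_assoc, hwt, mul_assoc, hfc, mul_assoc]
  have hEf : ∀ ζ, E ζ * f = E ζ := by
    intro ζ
    rw [hE, Finset.sum_mul]
    apply Finset.sum_congr rfl
    intro t _
    rw [smul_mul_assoc, mul_assoc, hff]
  have hfE : ∀ ζ, f * E ζ = E ζ := by
    intro ζ
    rw [hEc, hEf]
  -- `ζ w E = E`
  have hwE : ∀ ζ : k, ζ ^ p = 1 → ζ • (w * E ζ) = E ζ := by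
    intro ζ hζ
    have h1 : ζ • (w * E ζ) = ∑ t ∈ Finset.range p, ζ ^ (t + 1) • (w ^ (t + 1) * f) := by
      rw [hE, Finset.mul_sum, Finset.smul_sum]
      apply Finset.sum_congr rfl
      intro t _
      rw [mul_smul_comm, smul_smul, ← mul_assoc, ← pow_succ', ← pow_succ']
    have h2 := Finset.sum_range_succ (fun t => ζ ^ t • (w ^ t * f)) p
    have h3 := Finset.sum_range_succ' (fun t => ζ ^ t • (w ^ t * f)) p
    rw [h2] at h3
    simp only [pow_zero, one_smul, one_mul, hζ, hwp] at h3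
    rw [h1, hE]
    exact (add_right_cancel h3).symm
  have hwE' : ∀ ζ : k, ζ ^ p = 1 → w * E ζ = ζ⁻¹ • E ζ := by
    intro ζ hζ
    have hζ0 : ζ ≠ 0 := by
      rintro rfl
      rw [zero_pow hp0.ne'] at hζ
      exact zero_ne_one hζ
    calc w * E ζ = ζ⁻¹ • (ζ • (w * E ζ)) := by rw [smul_smul, inv_mul_cancel₀ hζ0, one_smul]
      _ = ζ⁻¹ • E ζ := by rw [hwE ζ hζ]
  have hwtE : ∀ ζ : k, ζ ^ p = 1 → ∀ t : ℕ, ζ ^ t • (w ^ t * E ζ) = E ζ := by
    intro ζ hζ t
    induction t with
    | zero => rw [pow_zero, pow_zero, one_smul, one_mul]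
    | succ t ih =>
      rw [pow_succ, pow_succ, mul_smul, mul_assoc, ← mul_smul_comm, hwE ζ hζ, ih]
  have hEE : ∀ ζ : k, ζ ^ p = 1 → E ζ * E ζ = E ζ := by
    intro ζ hζ
    nth_rewrite 1 [hE]
    rw [Finset.sum_mul]
    have h1 : ∀ t ∈ Finset.range p, ζ ^ t • (w ^ t * f) * E ζ = E ζ := by
      intro t _
      rw [smul_mul_assoc, mul_assoc, hfE, hwtE ζ hζ]
    rw [Finset.sum_congr rfl h1, Finset.sum_const, Finset.card_range, ← Nat.cast_smul_eq_nsmul k,
      hpk, one_smul]
  -- the sum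
  have hsum : ∑ i ∈ Finset.range p, E (ω ^ i) = f := by
    simp only [hE]
    rw [Finset.sum_comm]
    rw [Finset.sum_eq_single 0]
    · simp only [pow_zero, one_smul, one_mul, Finset.sum_const, Finset.card_range]
      rw [← Nat.cast_smul_eq_nsmul k, hpk, one_smul]
    · intro t ht ht0
      rw [← Finset.sum_smul]
      have h1 : ∑ i ∈ Finset.range p, (ω ^ i) ^ t = 0 := by
        have h2 : ∀ i ∈ Finset.range p, (ω ^ i) ^ t = (ω ^ t) ^ i := by
          intro i _
          rw [← pow_mul, ← pow_mul, mul_comm]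
        rw [Finset.sum_congr rfl h2]
        have h3 : ω ^ t ≠ 1 := hω.pow_ne_one_of_pos_of_lt ht0 (Finset.mem_range.mp ht)
        have h4 := geom_sum_mul (ω ^ t) p
        rw [← pow_mul, mul_comm t p, pow_mul, hω.pow_eq_one, one_pow, sub_self] at h4
        rcases mul_eq_zero.mp h4 with h5 | h5
        · exact h5
        · exact absurd (sub_eq_zero.mp h5) h3
      rw [h1, zero_smul]
    · intro h
      exact absurd (Finset.mem_range.mpr hp0) h
  -- choose
  by_contra hcon
  apply hf0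
  rw [← hsum]
  apply Finset.sum_eq_zero
  intro i _
  have hi : (ω ^ i) ^ p = 1 := by
    rw [← pow_mul, mul_comm, pow_mul, hω.pow_eq_one, one_pow]
  rcases hfp (E (ω ^ i)) (hEE _ hi) (hEc _) with h | h
  · rw [hEf] at h
    exact h
  · exfalso
    apply hcon
    rw [hEf] at h
    refine ⟨(ω ^ i)⁻¹, ?_⟩
    rw [← h]
    exact hwE' _ hi

/-- A root of a central unit of `k[H] b`. -/
theorem exists_root {k : Type} [Field k] [IsAlgClosed k] [CharP k 2] {G : Type} [Group G]
    {b : MonoidAlgebra k G} (hb : b * b = b) (hbc : ∀ a, a * b = b * a) (S : SimpleQuot b)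
    {p : ℕ} (hp : p.Prime) (hp2 : p ≠ 2) (c c' : MonoidAlgebra k G)
    (hc : ∀ a, a * c = c * a) (hcb : c * b = c) (hc' : ∀ a, a * c' = c' * a) (hcb' : c' * b = c')
    (hcc : c * c' = b) :
    ∃ (μ : k) (q : ℕ), 0 < q ∧ (μ • c ^ q) ^ p = c := by
  obtain ⟨lam, j0, hcj, hjn, hjb, hjc, hlam⟩ := exists_scalar hb hbc S c hc hcb
  obtain ⟨lam', j0', hcj', -, -, -, hlam'⟩ := exists_scalar hb hbc S c' hc' hcb'
  have hl : lam ≠ 0 := by
    rintro rfl
    have h1 : S.ρ (c * c') = 0 := by
      rw [map_mul, hlam, zero_smul, zero_mul]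
    have h2 : S.ρ (c * c') = S.ρ b := congrArg S.ρ hcc
    rw [h1, S.one] at h2
    have hne : Nonempty (Fin S.n) := ⟨⟨0, S.pos⟩⟩
    exact zero_ne_one h2
  obtain ⟨M, hM⟩ := hjn
  -- a power of two
  have hs : c ^ (2 ^ (M + 1)) = lam ^ (2 ^ (M + 1)) • b := by
    rw [hcj, add_pow_two (lam • b) j0 (by rw [smul_mul_assoc, mul_smul_comm, hjc]), smul_pow,
      idem_pow hb _ (by positivity)]
    have h1 : M ≤ 2 ^ (M + 1) := by
      have := Nat.lt_two_pow_self (n := M)
      have h2 : 2 ^ M ≤ 2 ^ (M + 1) := Nat.pow_le_pow_right (by norm_num) (by omega)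
      omega
    rw [pow_eq_zero_of_le h1 hM, add_zero]
  have hcop : Nat.Coprime p (2 ^ (M + 1)) := by
    apply Nat.Coprime.pow_right
    exact (Nat.coprime_primes hp Nat.prime_two).mpr hp2
  obtain ⟨m, -, hm⟩ := Nat.exists_mul_mod_eq_one_of_coprime hcop (by
    exact Nat.one_lt_two_pow (by omega))
  obtain ⟨l, hdiv⟩ : ∃ l, p * m = 2 ^ (M + 1) * l + 1 := by
    have := Nat.div_add_mod (p * m) (2 ^ (M + 1))
    rw [hm] at this
    exact ⟨_, this.symm⟩
  have hm0 : 0 < m := by
    rcases Nat.eq_zero_or_pos m with h | h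
    · rw [h, mul_zero] at hdiv
      omega
    · exact h
  have h2 : ∃ r : k, r ≠ 0 ∧ c ^ (p * m) = r • c := by
    rcases Nat.eq_zero_or_pos l with h | h
    · refine ⟨1, one_ne_zero, ?_⟩
      rw [hdiv, h, mul_zero, zero_add, pow_one, one_smul]
    · refine ⟨(lam ^ (2 ^ (M + 1))) ^ l, pow_ne_zero _ (pow_ne_zero _ hl), ?_⟩
      rw [hdiv, pow_succ, pow_mul, hs, smul_pow, idem_pow hb _ h, smul_mul_assoc, ← hbc, hcb]
  obtain ⟨r, hr, hrc⟩ := h2
  obtain ⟨μ, hμ⟩ := IsAlgClosed.exists_pow_nat_eq r⁻¹ hp.pos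
  refine ⟨μ, m, hm0, ?_⟩
  rw [smul_pow, hμ, ← pow_mul, mul_comm m p, hrc, smul_smul, inv_mul_cancel₀ hr, one_smul]

theorem coset_scalar {k : Type} [Field k] [IsAlgClosed k] [CharP k 2] {N : Type} [Group N]
    [Finite N] {H : Subgroup N} (hH : H.Normal) (b : MonoidAlgebra k H) (hb : b * b = b)
    (hbc : ∀ a, a * b = b * a) (Sb : SimpleQuot b) (hF : ∀ g : N, cj g (incl k H b) = incl k H b)
    (hU : ∀ x : N, ∃ u u', UC H (incl k H b) x u u')
    {p : ℕ} (hp : p.Prime) (hp2 : p ≠ 2) (hpow : ∀ x : N, x ^ p ∈ H)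
    (hab : ∀ x y u u' v v', UC H (incl k H b) x u u' → UC H (incl k H b) y v v' → u * v = v * u)
    (f : MonoidAlgebra k N) (hf : IsBlock f) (hfF : f * incl k H b = f) :
    ∀ x : N, ∃ a : MonoidAlgebra k H, el k x * f = incl k H a * f := by
  have hFc := F_central hF
  have hFF : incl k H b * incl k H b = incl k H b := by rw [← map_mul, hb]
  set F := incl k H b with hFd
  have hFf : F * f = f := by rw [← hFc, hfF]
  -- units are central
  have hcen : ∀ x u u', UC H F x u u' → ∀ a : MonoidAlgebra k N, a * u = u * a := by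
    intro x u u' hu a
    induction a using MonoidAlgebra.induction_linear with
    | zero => rw [zero_mul, mul_zero]
    | add a a' h h' => rw [add_mul, mul_add, h, h']
    | single g r =>
      have h1 : (MonoidAlgebra.single g r : MonoidAlgebra k N) = r • el k g := by
        simp [el]
      obtain ⟨v, v', hv⟩ := hU g
      obtain ⟨z, hz⟩ := el_mul_F hF hH hv
      have hur : u * F = u := by rw [hFc, hu.left]
      rw [h1, smul_mul_assoc, mul_smul_comm]
      congr 1
      calc el k g * u = (el k g * F) * u := by rw [mul_assoc, hu.left]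
        _ = incl k H z * (v * u) := by rw [hz, mul_assoc]
        _ = (incl k H z * u) * v := by rw [← hab x g u u' v v' hu hv, mul_assoc]
        _ = u * (incl k H z * v) := by rw [comm_incl u hu.com z, mul_assoc]
        _ = u * (F * el k g) := by rw [← hz, hFc]
        _ = u * el k g := by rw [← mul_assoc, hur]
  intro x
  obtain ⟨u, u', hu⟩ := hU x
  have hur : u * F = u := by rw [hFc, hu.left]
  have hur' : u' * F = u' := by rw [hFc, hu.left']
  have huc := hcen x u u' hu
  have hu' : UC H F x⁻¹ u' u :=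
    ⟨fun g hg => hu.supp' g (by rwa [inv_inv] at hg), hu.supp, hu.left', hu.left, hu.mul', hu.mul,
      hu.com', hu.com⟩
  have huc' := hcen x⁻¹ u' u hu'
  have hp0 := hp.pos
  -- the powers
  have hps : ∀ (y : N) (v v' : MonoidAlgebra k N), UC H F y v v' → ∃ c : MonoidAlgebra k H,
      incl k H c = v ^ p ∧ (∀ a, a * c = c * a) ∧ c * b = c := by
    intro y v v' hv
    have h1 : incl k H (res H (v ^ p)) = v ^ p := by
      apply incl_res_of_supp
      intro g hg
      apply supp_pow hH hv.supp p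
      intro h2
      apply hg
      have h3 := H.mul_mem h2 (hpow y)
      rwa [inv_mul_cancel_right] at h3
    refine ⟨_, h1, ?_, ?_⟩
    · intro a
      apply incl_injective
      rw [map_mul, map_mul, h1]
      have h2 : Commute (incl k H a) v := comm_incl v hv.com a
      exact h2.pow_right p
    · apply incl_injective
      rw [map_mul, h1, ← hFd]
      obtain ⟨q, rfl⟩ : ∃ q, p = q + 1 := ⟨p - 1, by omega⟩
      rw [pow_succ, mul_assoc, hFc, hv.left]
  obtain ⟨c, hc, hcc, hcb⟩ := hps x u u' hu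
  obtain ⟨c', hc', hcc', hcb'⟩ := hps x⁻¹ u' u hu'
  have hcc2 : c * c' = b := by
    apply incl_injective
    rw [map_mul, hc, hc']
    exact pow_mul_pow hu.left' hu.mul p hp0
  obtain ⟨μ, q, hq, hμ⟩ := exists_root hb hbc Sb hp hp2 c c' hcc hcb hcc' hcb' hcc2
  -- the element `v`
  set ν := μ • c ^ q with hν
  set v := incl k H ν with hv
  have hvp : v ^ p = u ^ p := by rw [hv, ← map_pow, hμ, hc]
  have hvc : ∀ a, a * v = v * a := by
    intro a
    rw [hv, hν, incl_smul, map_pow, hc, mul_smul_comm, smul_mul_assoc]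
    congr 1
    have h1 : Commute a u := huc a
    exact (h1.pow_right p).pow_right q
  have hvF : v * F = v := by
    rw [hv, hFd, ← map_mul, hν, smul_mul_assoc]
    congr 2
    obtain ⟨r, rfl⟩ : ∃ r, q = r + 1 := ⟨q - 1, by omega⟩
    rw [pow_succ, mul_assoc, hcb]
  -- the element `w`
  set w := u * (u' ^ p * v ^ (p - 1)) with hw
  have hwc : ∀ a, a * w = w * a := by
    intro a
    have h1 : Commute a u := huc a
    have h2 : Commute a u' := huc' a
    have h3 : Commute a v := hvc a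
    exact h1.mul_right ((h2.pow_right p).mul_right (h3.pow_right (p - 1)))
  have hupp : u ^ p * u' ^ p = F := pow_mul_pow hu.left' hu.mul p hp0
  have hwv : w * v = u := by
    calc w * v = u * (u' ^ p * (v ^ (p - 1) * v)) := by rw [hw]; noncomm_ring
      _ = u * (u' ^ p * u ^ p) := by rw [← pow_succ, Nat.sub_add_cancel hp0, hvp]
      _ = u * (u ^ p * u' ^ p) := by
          congr 1
          have h1 : Commute (u' ^ p) u := huc (u' ^ p)
          exact h1.pow_right p
      _ = u := by rw [hupp, hur]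
  have hwp : w ^ p * f = f := by
    have h1 : (w * v) ^ p = u ^ p := by rw [hwv]
    have h2 : Commute w v := hvc w
    rw [h2.mul_pow, hvp] at h1
    calc w ^ p * f = w ^ p * (F * f) := by rw [hFf]
      _ = w ^ p * ((u ^ p * u' ^ p) * f) := by rw [hupp]
      _ = (w ^ p * u ^ p) * u' ^ p * f := by noncomm_ring
      _ = F * f := by rw [h1, hupp]
      _ = f := hFf
  obtain ⟨ζ, hζ⟩ := scalar_of_pow hp hp2 f hf w hwc hwp
  obtain ⟨z, hz⟩ := el_mul_F hF hH hu
  refine ⟨ζ • (z * ν), ?_⟩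
  calc el k x * f = el k x * (F * f) := by rw [hFf]
    _ = (el k x * F) * f := by rw [mul_assoc]
    _ = incl k H z * (w * v) * f := by rw [hz, hwv]
    _ = incl k H z * (v * w) * f := by rw [hvc w]
    _ = (incl k H z * v) * (w * f) := by noncomm_ring
    _ = ζ • ((incl k H z * v) * f) := by rw [hζ, mul_smul_comm]
    _ = _ := by rw [incl_smul, map_mul, smul_mul_assoc]

end Pool.Agent.Helper52.ST
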