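import Pool.Agent.Helper52.ST.C

/-!
# One simple module for extensions by elementary abelian groups of odd order
-/

set_option autoImplicit false
set_option linter.unusedSectionVars false
open scoped BigOperators MonoidAlgebra
open Classical

namespace Pool.Agent.Helper52.ST

open Pool.Agent.Helper36.ST Pool.Agent.Helper36.NB Pool.Agent.Helper44.S3
open Pool.Agent.Helper36.NC Pool.Agent.Helper52.NO

/-- Powers in characteristic two. -/
theorem add_pow_two {k : Type} [Field k] [CharP k 2] {G : Type} [Group G]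
    (x y : MonoidAlgebra k G) (h : x * y = y * x) (s : ℕ) :
    (x + y) ^ (2 ^ s) = x ^ (2 ^ s) + y ^ (2 ^ s) := by
  have hch : CharP (MonoidAlgebra k G) 2 := by
    apply CharTwo.of_one_ne_zero_of_two_eq_zero one_ne_zero
    have h2 : (2 : k) = 0 := CharTwo.two_eq_zero
    have h3 : (2 : MonoidAlgebra k G) = algebraMap k (MonoidAlgebra k G) 2 := (map_ofNat _ 2).symm
    rw [h3, h2, map_zero]
  exact add_pow_char_pow_of_commute 2 s h

theorem idem_pow {A : Type} [Monoid A] {a : A} (h : a * a = a) (n : ℕ) (hn : 0 < n) :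
    a ^ n = a := by
  obtain ⟨m, rfl⟩ : ∃ m, n = m + 1 := ⟨n - 1, by omega⟩
  induction m with
  | zero => rw [zero_add, pow_one]
  | succ m ih => rw [pow_succ, ih (by omega), h]

theorem pow_mul_pow {A : Type} [Ring A] {F v v' : A} (hv : F * v' = v') (h1 : v * v' = F)
    (n : ℕ) (hn : 0 < n) : v ^ n * v' ^ n = F := by
  obtain ⟨m, rfl⟩ : ∃ m, n = m + 1 := ⟨n - 1, by omega⟩
  induction m with
  | zero => rw [zero_add, pow_one, pow_one, h1]
  | succ m ih =>
    rw [pow_succ, pow_succ' v']
    calc v ^ (m + 1) * v * (v' * v' ^ (m + 1)) = v ^ (m + 1) * (v * v') * v' ^ (m + 1) := by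
          noncomm_ring
      _ = v ^ (m + 1) * (F * v' ^ (m + 1)) := by rw [h1, mul_assoc]
      _ = v ^ (m + 1) * v' ^ (m + 1) := by rw [pow_succ' v', ← mul_assoc F, hv]
      _ = F := ih (by omega)

theorem supp_pow {k : Type} [Field k] {N : Type} [Group N] [Finite N] {H : Subgroup N}
    (hH : H.Normal) {x : N} {a : MonoidAlgebra k N} (ha : ∀ g, g * x⁻¹ ∉ H → a.coeff g = 0)
    (n : ℕ) : ∀ g, g * (x ^ n)⁻¹ ∉ H → (a ^ n).coeff g = 0 := by
  induction n with
  | zero =>
    rw [pow_zero, pow_zero]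
    exact supp_el (k := k) (H := H) (1 : N)
  | succ n ih =>
    rw [pow_succ, pow_succ]
    exact supp_mul hH ih ha

/-- The scalar part of a central element of `k[H] b`. -/
theorem exists_scalar {k : Type} [Field k] {G : Type} [Group G] {b : MonoidAlgebra k G}
    (hb : b * b = b) (hbc : ∀ a, a * b = b * a) (S : SimpleQuot b) (c : MonoidAlgebra k G)
    (hc : ∀ a, a * c = c * a) (hcb : c * b = c) :
    ∃ (lam : k) (j : MonoidAlgebra k G), c = lam • b + j ∧ IsNilpotent j ∧ j * b = j ∧
      (∀ a, a * j = j * a) ∧ S.ρ c = lam • 1 := by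
  have hcen : S.ρ c ∈ Set.center (Matrix (Fin S.n) (Fin S.n) k) := by
    rw [Semigroup.mem_center_iff]
    intro Y
    obtain ⟨a, rfl⟩ := S.surj Y
    rw [← map_mul, ← map_mul, hc]
  rw [Matrix.center_eq_range] at hcen
  obtain ⟨lam, hlam⟩ := hcen
  have h1 : S.ρ c = lam • 1 := by
    rw [← hlam]
    ext i j
    simp [Matrix.one_apply, Matrix.diagonal_apply]
  have hjb : (c - lam • b) * b = c - lam • b := by
    rw [sub_mul, hcb, smul_mul_assoc, hb]
  refine ⟨lam, c - lam • b, by abel, ?_, hjb, ?_, h1⟩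
  · have h2 : S.ρ (c - lam • b) = 0 := by
      rw [map_sub, map_smul, h1, S.one, sub_self]
    have h3 := S.nil _ h2
    rwa [hjb] at h3
  · intro a
    rw [mul_sub, sub_mul, hc, mul_smul_comm, smul_mul_assoc, hbc]

/-- The commutator of two units of cosets. -/
theorem key_odd {k : Type} [Field k] [IsAlgClosed k] [CharP k 2] {N : Type} [Group N]
    [Finite N] {H : Subgroup N} (hH : H.Normal) (b : MonoidAlgebra k H) (hb : b * b = b)
    (hbc : ∀ a, a * b = b * a) (Sb : SimpleQuot b) (hF : ∀ g : N, cj g (incl k H b) = incl k H b)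
    (hcomm : ∀ x y : N, x * y * x⁻¹ * y⁻¹ ∈ H) {p : ℕ} (hp : p.Prime) (hp2 : p ≠ 2)
    (hpow : ∀ x : N, x ^ p ∈ H) {x y : N} {u u' v v' : MonoidAlgebra k N}
    (hu : UC H (incl k H b) x u u') (hv : UC H (incl k H b) y v v') (hne : u * v ≠ v * u) :
    ∃ (lam : k) (j : MonoidAlgebra k H), lam ≠ 1 ∧ IsNilpotent j ∧
      (∀ a, a * j = j * a) ∧ v * u = (lam • incl k H b + incl k H j) * (u * v) := by
  have hFc := F_central hF
  have hFF : incl k H b * incl k H b = incl k H b := by rw [← map_mul, hb]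
  set F := incl k H b with hFd
  have hur : u * F = u := by rw [hFc, hu.left]
  have hvr : v * F = v := by rw [hFc, hv.left]
  have hur' : u' * F = u' := by rw [hFc, hu.left']
  set c := v * u * v' * u' with hc
  have hFcc : F * c = c := by
    rw [hc, ← mul_assoc, ← mul_assoc, ← mul_assoc, hv.left]
  have hcF : c * F = c := by rw [hFc, hFcc]
  -- support
  have hcs : ∀ g, g ∉ H → c.coeff g = 0 := by
    intro g hg
    have h1 := supp_mul hH (supp_mul hH (supp_mul hH hv.supp hu.supp)
      (y := y⁻¹) (b := v') (by rw [inv_inv]; exact hv.supp'))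
      (y := x⁻¹) (b := u') (by rw [inv_inv]; exact hu.supp')
    apply h1
    intro h2
    apply hg
    have h3 := H.mul_mem h2 (hcomm y x)
    have h4 : g * (y * x * y⁻¹ * x⁻¹)⁻¹ * (y * x * y⁻¹ * x⁻¹) = g := by group
    rwa [h4] at h3
  obtain ⟨c0, hc0⟩ : ∃ c0, incl k H c0 = c := ⟨res H c, incl_res_of_supp c hcs⟩
  have hvu : v * u = c * (u * v) := by
    calc v * u = v * u * (v' * v) := by rw [hv.mul', mul_assoc, hur]
      _ = v * u * v' * (F * v) := by rw [hv.left, ← mul_assoc]
      _ = v * u * v' * (u' * u * v) := by rw [hu.mul']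
      _ = c * (u * v) := by rw [hc]; noncomm_ring
  have hcu : c * u = u * c := by rw [← hc0]; exact comm_incl u hu.com c0
  have hcv : c * v = v * c := by rw [← hc0]; exact comm_incl v hv.com c0
  -- `c` commutes with `k[H]`
  have hch : ∀ h ∈ H, el k h * c = c * el k h := by
    intro h hh
    rw [hc]
    calc el k h * (v * u * v' * u') = (el k h * v) * u * v' * u' := by noncomm_ring
      _ = v * (el k h * u) * v' * u' := by rw [hv.com h hh]; noncomm_ring
      _ = v * u * (el k h * v') * u' := by rw [hu.com h hh]; noncomm_ring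
      _ = v * u * v' * (el k h * u') := by rw [hv.com' h hh]; noncomm_ring
      _ = v * u * v' * u' * el k h := by rw [hu.com' h hh]; noncomm_ring
  have hc0c : ∀ a, a * c0 = c0 * a := by
    intro a
    apply incl_injective
    rw [map_mul, map_mul, hc0]
    exact comm_incl c hch a
  have hc0b : c0 * b = c0 := by
    apply incl_injective
    rw [map_mul, hc0]
    exact hcF
  -- powers
  have hpw : ∀ n : ℕ, v ^ n * u = c ^ n * (u * v ^ n) := by
    intro n
    induction n with
    | zero => rw [pow_zero, pow_zero, one_mul, one_mul, mul_one]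
    | succ n ih =>
      have hcn : v * c ^ n = c ^ n * v := by
        have h1 : Commute v (c ^ n) := (show Commute v c from hcv.symm).pow_right n
        exact h1
      calc v ^ (n + 1) * u = v * (v ^ n * u) := by rw [pow_succ', mul_assoc]
        _ = (v * c ^ n) * (u * v ^ n) := by rw [ih, mul_assoc]
        _ = c ^ n * (v * u) * v ^ n := by rw [hcn]; noncomm_ring
        _ = c ^ n * (c * (u * v)) * v ^ n := by rw [hvu]
        _ = c ^ (n + 1) * (u * (v * v ^ n)) := by rw [pow_succ]; noncomm_ring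
        _ = c ^ (n + 1) * (u * v ^ (n + 1)) := by rw [← pow_succ']
  have hp0 : 0 < p := hp.pos
  have hvps : ∀ g, g ∉ H → (v ^ p).coeff g = 0 := by
    intro g hg
    apply supp_pow hH hv.supp p
    intro h2
    apply hg
    have h3 := H.mul_mem h2 (hpow y)
    rwa [inv_mul_cancel_right] at h3
  have hvpu : v ^ p * u = u * v ^ p := by
    rw [← incl_res_of_supp (v ^ p) hvps]
    exact comm_incl u hu.com _
  have hcp : c ^ p = F := by
    have h1 : c ^ p * (u * v ^ p) = u * v ^ p := by rw [← hpw p, hvpu]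
    have h2 : v ^ p * v' ^ p = F := pow_mul_pow hv.left' hv.mul p hp0
    have h3 : c ^ p * (u * v ^ p) * (v' ^ p * u') = u * v ^ p * (v' ^ p * u') := by rw [h1]
    have h4 : u * v ^ p * (v' ^ p * u') = F := by
      calc u * v ^ p * (v' ^ p * u') = u * (v ^ p * v' ^ p) * u' := by noncomm_ring
        _ = F := by rw [h2, hur, hu.mul]
    have h5 : c ^ p * (u * v ^ p) * (v' ^ p * u') = c ^ p := by
      calc c ^ p * (u * v ^ p) * (v' ^ p * u') = c ^ p * (u * v ^ p * (v' ^ p * u')) := by
            noncomm_ring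
        _ = c ^ p * F := by rw [h4]
        _ = c ^ p := by
            obtain ⟨q, rfl⟩ : ∃ q, p = q + 1 := ⟨p - 1, by omega⟩
            rw [pow_succ, mul_assoc, hcF]
    rw [← h5, h3, h4]
  have hc0p : c0 ^ p = b := by
    apply incl_injective
    rw [map_pow, hc0]
    exact hcp
  obtain ⟨lam, j, hcj, hjn, hjb, hjc, -⟩ := exists_scalar hb hbc Sb c0 hc0c hc0b
  refine ⟨lam, j, ?_, hjn, hjc, ?_⟩
  · intro hlam
    rw [hlam, one_smul] at hcj
    obtain ⟨M, hM⟩ := hjn
    -- a power of two
    have hs : c0 ^ (2 ^ (M + 1)) = b := by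
      rw [hcj, add_pow_two b j (hjc b), idem_pow hb _ (by positivity)]
      have h1 : M ≤ 2 ^ (M + 1) := by
        have := Nat.lt_two_pow_self (n := M)
        have h2 : 2 ^ M ≤ 2 ^ (M + 1) := Nat.pow_le_pow_right (by norm_num) (by omega)
        omega
      rw [pow_eq_zero_of_le h1 hM, add_zero]
    have hcop : Nat.Coprime p (2 ^ (M + 1)) := by
      apply Nat.Coprime.pow_right
      exact (Nat.coprime_primes hp Nat.prime_two).mpr hp2
    obtain ⟨m, -, hm⟩ := Nat.exists_mul_mod_eq_one_of_coprime hcop (by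
      exact Nat.one_lt_two_pow (by omega))
    have hdiv : p * m = 2 ^ (M + 1) * (p * m / 2 ^ (M + 1)) + 1 := by
      have := Nat.div_add_mod (p * m) (2 ^ (M + 1))
      rw [hm] at this
      exact this.symm
    have hm0 : 0 < m := by
      rcases Nat.eq_zero_or_pos m with h | h
      · rw [h, mul_zero] at hdiv
        omega
      · exact h
    have h1 : c0 ^ (p * m) = b := by rw [pow_mul, hc0p, idem_pow hb m hm0]
    have h2 : c0 ^ (p * m) = c0 := by
      rw [hdiv, pow_succ, pow_mul, hs]
      rcases Nat.eq_zero_or_pos (p * m / 2 ^ (M + 1)) with h | h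
      · rw [h, pow_zero, one_mul]
      · rw [idem_pow hb _ h, ← hbc, hc0b]
    apply hne
    have h3 : c = F := by rw [← hc0, ← h2, h1]
    rw [hvu, h3, ← mul_assoc, hu.left]
  · rw [hvu, ← hc0, hcj, map_add, incl_smul]

/-- The trace vanishes on the coset. -/
theorem trace_zero {k : Type} [Field k] [IsAlgClosed k] [CharP k 2] {N : Type} [Group N]
    [Finite N] {H : Subgroup N} {b : MonoidAlgebra k H}
    (hF : ∀ g : N, cj g (incl k H b) = incl k H b)
    {x y : N} {u u' v v' : MonoidAlgebra k N}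
    (hu : UC H (incl k H b) x u u') (hv : UC H (incl k H b) y v v')
    {lam : k} {j : MonoidAlgebra k H} (hlam : lam ≠ 1) (hjn : IsNilpotent j)
    (hjc : ∀ a, a * j = j * a)
    (hvu : v * u = (lam • incl k H b + incl k H j) * (u * v))
    (τ : MonoidAlgebra k N →ₗ[k] k) (hτ : ∀ a a', τ (a * a') = τ (a' * a))
    (hτn : ∀ a, IsNilpotent a → τ a = 0) (hτF : ∀ a, τ (a * incl k H b) = τ a)
    (z : MonoidAlgebra k H) : τ (incl k H z * u) = 0 := by
  have hFc := F_central hF
  set F := incl k H b with hFd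
  have hur : u * F = u := by rw [hFc, hu.left]
  have h1 : τ (incl k H z * u) = τ (v * (incl k H z * u) * v') := by
    calc τ (incl k H z * u) = τ (incl k H z * u * F) := (hτF _).symm
      _ = τ ((incl k H z * u * v') * v) := by rw [← hv.mul', ← mul_assoc]
      _ = τ (v * (incl k H z * u * v')) := hτ _ _
      _ = _ := by congr 1; noncomm_ring
  have hvz : v * incl k H z = incl k H z * v := (comm_incl v hv.com z).symm
  have h2 : v * (incl k H z * u) * v' = lam • (incl k H z * u) + incl k H j * (incl k H z * u) := by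
    calc v * (incl k H z * u) * v' = (v * incl k H z) * u * v' := by noncomm_ring
      _ = incl k H z * (v * u) * v' := by rw [hvz]; noncomm_ring
      _ = incl k H z * ((lam • F + incl k H j) * (u * v)) * v' := by rw [hvu]
      _ = incl k H z * (lam • F + incl k H j) * (u * (v * v')) := by noncomm_ring
      _ = incl k H z * (lam • F + incl k H j) * u := by rw [hv.mul, hur]
      _ = lam • (incl k H z * (F * u)) + (incl k H z * incl k H j) * u := by
          rw [mul_add, add_mul, mul_smul_comm, smul_mul_assoc, mul_assoc]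
      _ = lam • (incl k H z * u) + (incl k H j * incl k H z) * u := by
          rw [hu.left, ← map_mul, hjc, map_mul]
      _ = _ := by rw [mul_assoc (incl k H j)]
  have h3 : IsNilpotent (incl k H j * (incl k H z * u)) := by
    obtain ⟨M, hM⟩ := hjn
    refine ⟨M, ?_⟩
    have hc : Commute (incl k H j) (incl k H z * u) := by
      change incl k H j * (incl k H z * u) = incl k H z * u * incl k H j
      rw [← mul_assoc, ← map_mul, ← hjc, map_mul, mul_assoc, comm_incl u hu.com j, ← mul_assoc]
    rw [hc.mul_pow, ← map_pow, hM, map_zero, zero_mul]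
  rw [h2, map_add, map_smul, hτn _ h3, add_zero, smul_eq_mul] at h1
  have h4 : (1 - lam) * τ (incl k H z * u) = 0 := by
    rw [sub_mul, one_mul, ← h1, sub_self]
  rcases mul_eq_zero.mp h4 with h5 | h5
  · exact absurd (sub_eq_zero.mp h5).symm hlam
  · exact h5

theorem one_simple_odd {k : Type} [Field k] [IsAlgClosed k] [CharP k 2] {N : Type} [Group N]
    [Finite N] {H : Subgroup N} (hH : H.Normal) (b : MonoidAlgebra k H) (hb : b * b = b)
    (hbc : ∀ a, a * b = b * a) (Sb : SimpleQuot b) (hF : ∀ g : N, cj g (incl k H b) = incl k H b)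
    (hU : ∀ x : N, ∃ u u', UC H (incl k H b) x u u')
    (hcomm : ∀ x y : N, x * y * x⁻¹ * y⁻¹ ∈ H) {p : ℕ} (hp : p.Prime) (hp2 : p ≠ 2)
    (hpow : ∀ x : N, x ^ p ∈ H)
    (hnd : ∀ x : N, (∀ y u u' v v', UC H (incl k H b) x u u' → UC H (incl k H b) y v v' →
      u * v = v * u) → x ∈ H) :
    OneSimple (incl k H b) := by
  have hFc := F_central hF
  have hFF : incl k H b * incl k H b = incl k H b := by rw [← map_mul, hb]
  have hF0 : incl k H b ≠ 0 := by
    intro h
    have h1 : b = 0 := incl_injective H (by rw [h, map_zero])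
    subst h1
    have h2 := Sb.one
    rw [map_zero] at h2
    have hne : Nonempty (Fin Sb.n) := ⟨⟨0, Sb.pos⟩⟩
    exact zero_ne_one h2
  obtain ⟨sec, hsec⟩ := Sb.ρ.toLinearMap.exists_rightInverse_of_surjective
    (LinearMap.range_eq_top.mpr Sb.surj)
  have hsec' : ∀ X, Sb.ρ (sec X) = X := fun X => LinearMap.congr_fun hsec X
  obtain ⟨S⟩ := simpleQuot_of_prop (incl k H b) hF0 hFF hFc
    (fun g => if h : g ∈ H then (Sb.ρ (el k (⟨g, h⟩ : H))).trace else 0) (by
    intro n R hn hR hRF
    let τ : MonoidAlgebra k N →ₗ[k] k :=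
      (Matrix.traceLinearMap (Fin n) k k).comp R.toLinearMap
    have hτd : ∀ a, τ a = (R a).trace := fun a => rfl
    have hτ : ∀ a a', τ (a * a') = τ (a' * a) := by
      intro a a'
      rw [hτd, hτd, map_mul, map_mul, Matrix.trace_mul_comm]
    have hτn : ∀ a, IsNilpotent a → τ a = 0 := by
      intro a ha
      rw [hτd]
      exact (Matrix.isNilpotent_trace_of_isNilpotent (ha.map R)).eq_zero
    have hτF : ∀ a, τ (a * incl k H b) = τ a := by
      intro a
      rw [hτd, hτd, map_mul, hRF, mul_one]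
    -- the trace on `k[H]`
    let Ti : MonoidAlgebra k H →ₗ[k] k :=
      { toFun := fun a => τ (incl k H a)
        map_add' := fun a a' => by rw [map_add, map_add]
        map_smul' := fun c a => by rw [incl_smul, map_smul, RingHom.id_apply] }
    have hTi : ∀ a, Ti a = τ (incl k H a) := fun a => rfl
    have hTi0 : ∀ a, Sb.ρ a = 0 → Ti a = 0 := by
      intro a ha
      rw [hTi, ← hτF, ← map_mul]
      exact hτn _ ((Sb.nil a ha).map (incl k H))
    have hTi1 : ∀ a a', Sb.ρ a = Sb.ρ a' → Ti a = Ti a' := by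
      intro a a' h
      have := hTi0 (a - a') (by rw [map_sub, h, sub_self])
      rwa [map_sub, sub_eq_zero] at this
    have hμ := linear_trace Sb.pos (Ti.comp sec) (by
      intro X Y
      change Ti (sec (X * Y)) = Ti (sec (Y * X))
      have h1 : Ti (sec (X * Y)) = Ti (sec X * sec Y) := hTi1 _ _ (by
        rw [hsec', map_mul Sb.ρ, hsec', hsec'])
      have h2 : Ti (sec (Y * X)) = Ti (sec Y * sec X) := hTi1 _ _ (by
        rw [hsec', map_mul Sb.ρ, hsec', hsec'])
      rw [h1, h2, hTi, hTi, map_mul (incl k H), map_mul (incl k H), hτ])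
    refine ⟨(Ti.comp sec) (Matrix.single ⟨0, Sb.pos⟩ ⟨0, Sb.pos⟩ 1), fun g => ?_⟩
    by_cases hg : g ∈ H
    · rw [dif_pos hg, ← hμ]
      have h1 : (Ti.comp sec) (Sb.ρ (el k (⟨g, hg⟩ : H))) = Ti (el k (⟨g, hg⟩ : H)) := by
        change Ti (sec _) = _
        exact hTi1 _ _ (hsec' _)
      rw [h1, hTi, incl_el, hτd]
    · rw [dif_neg hg, mul_zero]
      have h1 : ∃ y u u' v v', UC H (incl k H b) g u u' ∧ UC H (incl k H b) y v v' ∧
          u * v ≠ v * u := by
        by_contra hcon
        push Not at hcon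
        exact hg (hnd g fun y u u' v v' h2 h3 => hcon y u u' v v' h2 h3)
      obtain ⟨y, u, u', v, v', hu, hv, hne⟩ := h1
      obtain ⟨lam, j, hlam, hjn, hjc, hvu⟩ := key_odd hH b hb hbc Sb hF hcomm hp hp2 hpow hu hv hne
      obtain ⟨z, hz⟩ := el_mul_F hF hH hu
      rw [← hτd, ← hτF, hz]
      exact trace_zero hF hu hv hlam hjn hjc hvu τ hτ hτn hτF z)
  exact oneSimple_of_simpleQuot S

end Pool.Agent.Helper52.ST
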