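import Pool.Agent.Helper87.ST.PCP

set_option autoImplicit false

namespace Pool.Agent.Helper90.ST

/-- A conjugate of a Sylow subgroup of `H` inside a given Sylow subgroup. -/
theorem exists_conj_sylow {G : Type} [Group G] [Finite G] {r : ℕ} [Fact r.Prime] (R : Sylow r G)
    (H : Subgroup G) : ∃ (B : Subgroup G) (g : G), Nat.card B = r ^ (Nat.card H).factorization r ∧
      B ≤ R ∧ ∀ x ∈ B, g⁻¹ * x * g ∈ H := by
  classical
  obtain ⟨P⟩ : Nonempty (Sylow r H) := inferInstance
  set B0 : Subgroup G := (P : Subgroup H).map H.subtype with hB0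
  have hp : IsPGroup r B0 := P.isPGroup'.map H.subtype
  obtain ⟨Q, hQ⟩ := hp.exists_le_sylow
  obtain ⟨g, hg⟩ := MulAction.exists_smul_eq G Q R
  refine ⟨B0.map (MulAut.conj g).toMonoidHom, g, ?_, ?_, ?_⟩
  · rw [Subgroup.card_map_of_injective (MulAut.conj g).injective, hB0,
      Subgroup.card_map_of_injective H.subtype_injective]
    exact Sylow.card_eq_multiplicity P
  · rintro x ⟨b, hb, rfl⟩
    have hbQ : b ∈ (Q : Subgroup G) := hQ hb
    rw [← hg, Sylow.coe_subgroup_smul]
    exact Subgroup.smul_mem_pointwise_smul b (MulAut.conj g) _ hbQ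
  · rintro x ⟨b, hb, rfl⟩
    obtain ⟨y, _, rfl⟩ := hb
    have : g⁻¹ * (MulAut.conj g).toMonoidHom (H.subtype y) * g = (y : G) := by
      simp [MulAut.conj_apply, mul_assoc]
    rw [this]
    exact y.2

theorem pcp_prime_power {G ι : Type} [Group G] [Finite ι] {H : ι → Subgroup G} {s t : ℕ}
    (h : IsPCP H s) (hι : Nat.card ι = t + 1) (hs : 1 < s) (ht : 1 < t) (hst : s ≤ t ^ 2) :
    ∃ p n : ℕ, p.Prime ∧ s = p ^ n := by
  classical
  haveI : Finite G := Nat.finite_of_card_ne_zero (by
    rw [h.cardG]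
    positivity)
  haveI : Fintype ι := Fintype.ofFinite ι
  have hs0 : s ≠ 0 := by omega
  have claim : ∀ r, r.Prime → r ∣ s → t ≤ r ^ (s.factorization r) := by
    intro r hr hrs
    haveI : Fact r.Prime := ⟨hr⟩
    obtain ⟨R⟩ : Nonempty (Sylow r G) := inferInstance
    have hB := fun i => exists_conj_sylow R (H i)
    choose B g hB1 hB2 hB3 using hB
    set c := s.factorization r with hc
    have hc1 : 1 ≤ c := (hr.dvd_iff_one_le_factorization hs0).1 hrs
    have hcard : ∀ i, Nat.card (B i ⊓ (R : Subgroup G) : Subgroup G) = r ^ c := by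
      intro i
      rw [inf_eq_left.2 (hB2 i), hB1 i, h.cardH i]
    have hR : Nat.card (R : Subgroup G) = r ^ (2 * c) := by
      rw [Sylow.card_eq_multiplicity R, h.cardG, Nat.factorization_pow]
      simp [hc]
    have hdis : ∀ i j, i ≠ j → ∀ a ∈ B i, a ∈ B j → a = 1 := by
      intro i j hij a hai haj
      have h1 := hB3 i a hai
      have h2 := hB3 j a haj
      have h3 := h.conj_disj (by omega) hij ((g j)⁻¹ * g i) _ h1 (by
        have : (g j)⁻¹ * g i * ((g i)⁻¹ * a * g i) * ((g j)⁻¹ * g i)⁻¹ = (g j)⁻¹ * a * g j := by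
          group
        rw [this]
        exact h2)
      have h4 : a = g i * ((g i)⁻¹ * a * g i) * (g i)⁻¹ := by group
      rw [h4, h3]
      group
    have hsum := sum_card_le B hdis (R : Subgroup G)
    rw [hR, Finset.sum_congr rfl (fun i _ => by rw [hcard i]), Finset.sum_const, Finset.card_univ,
      ← Nat.card_eq_fintype_card, hι, smul_eq_mul] at hsum
    have hP : 1 < r ^ c := Nat.one_lt_pow (by omega) hr.one_lt
    set P := r ^ c with hPdef
    have hPP : r ^ (2 * c) = P * P := by rw [hPdef, ← pow_add, two_mul]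
    rw [hPP] at hsum
    obtain ⟨m, hm⟩ : ∃ m, P = m + 1 := ⟨P - 1, by omega⟩
    rw [hm] at hsum ⊢
    have h5 : (m + 1) * (m + 1) - 1 = (m + 2) * m := by
      have : (m + 1) * (m + 1) = (m + 2) * m + 1 := by ring
      omega
    rw [h5, Nat.add_sub_cancel] at hsum
    have h6 : t + 1 ≤ m + 2 := Nat.le_of_mul_le_mul_right hsum (by omega)
    omega
  obtain ⟨p, hp, hps⟩ := Nat.exists_prime_and_dvd (show s ≠ 1 by omega)
  refine ⟨p, s.factorization p, hp, ?_⟩
  by_contra hne
  have hdvd : p ^ s.factorization p ∣ s := Nat.ordProj_dvd s p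
  obtain ⟨m, hm⟩ := hdvd
  have hm1 : m ≠ 1 := by
    rintro rfl
    rw [mul_one] at hm
    exact hne hm
  have hm0 : m ≠ 0 := by
    rintro rfl
    rw [mul_zero] at hm
    exact hs0 hm
  obtain ⟨r, hr, hrm⟩ := Nat.exists_prime_and_dvd hm1
  have hrs : r ∣ s := by
    rw [hm]
    exact dvd_mul_of_dvd_right hrm _
  have hpm : ¬ p ∣ m := by
    have h1 := Nat.not_dvd_ordCompl hp hs0
    have h2 : s / p ^ s.factorization p = m := by
      conv_lhs => rw [hm]
      have hpos : 0 < p ^ s.factorization p := pow_pos hp.pos _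
      rw [← hm, Nat.div_eq_iff_eq_mul_left hpos (Nat.ordProj_dvd s p)]
      rw [mul_comm]
      exact hm
    rwa [h2] at h1
  have hrp : r ≠ p := by
    rintro rfl
    exact hpm hrm
  have h1 := claim p hp hps
  have h2 := claim r hr hrs
  have hcop : Nat.Coprime (p ^ s.factorization p) (r ^ s.factorization r) :=
    Nat.Coprime.pow _ _ ((Nat.coprime_primes hp hr).2 (Ne.symm hrp))
  have h3 : p ^ s.factorization p * r ^ s.factorization r ≤ s :=
    Nat.le_of_dvd (by omega)
      (hcop.mul_dvd_of_dvd_of_dvd (Nat.ordProj_dvd s p) (Nat.ordProj_dvd s r))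
  have h4 : p ^ s.factorization p ≠ r ^ s.factorization r := by
    intro heq
    rw [heq, Nat.coprime_self] at hcop
    rw [← heq] at hcop
    omega
  have h5 : t * (t + 1) ≤ p ^ s.factorization p * r ^ s.factorization r := by
    rcases lt_or_gt_of_ne h4 with h | h
    · exact Nat.mul_le_mul h1 (by omega)
    · rw [mul_comm (p ^ s.factorization p)]
      exact Nat.mul_le_mul h2 (by omega)
  nlinarith

end Pool.Agent.Helper90.ST
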