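import Pool.Agent.Helper87.ST.PCP

set_option autoImplicit false

namespace Pool.Agent.Helper90.ST

theorem full_cover {q : ℕ} (hq : 1 < q) {G ι : Type} [Group G] [Finite ι]
    (H : ι → Subgroup G) (h : IsPCP H q) (hι : Nat.card ι = q + 1) (g : G) : ∃ i, g ∈ H i := by
  classical
  have : Finite G := Nat.finite_of_card_ne_zero (by
    rw [h.cardG]
    positivity)
  have : Fintype G := Fintype.ofFinite G
  have : Fintype ι := Fintype.ofFinite ι
  have hne : Nonempty ι := by
    rw [← not_isEmpty_iff]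
    intro hemp
    rw [Nat.card_of_isEmpty] at hι
    omega
  by_cases hg : g = 1
  · obtain ⟨i⟩ := hne
    exact ⟨i, hg ▸ (H i).one_mem⟩
  set U : Finset G := Finset.univ.biUnion (fun i => (SF (H i)).erase 1) with hU
  have hcU : U.card = (q + 1) * (q - 1) := by
    rw [hU, Finset.card_biUnion]
    · rw [Finset.sum_congr rfl (fun i _ => by
        rw [Finset.card_erase_of_mem (by simp), card_SF, h.cardH i]), Finset.sum_const,
        Finset.card_univ, ← Nat.card_eq_fintype_card, hι, smul_eq_mul]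
    · intro i _ j _ hij
      show Disjoint _ _
      rw [Finset.disjoint_left]
      intro a ha hb
      rw [Finset.mem_erase, mem_SF] at ha hb
      exact ha.1 (h.disj i j hij a ha.2 hb.2)
  have hsub : U ⊆ Finset.univ.erase 1 := by
    intro a ha
    rw [hU, Finset.mem_biUnion] at ha
    obtain ⟨i, _, ha⟩ := ha
    rw [Finset.mem_erase] at ha ⊢
    exact ⟨ha.1, Finset.mem_univ _⟩
  have hcard : (Finset.univ.erase (1 : G)).card ≤ U.card := by
    rw [Finset.card_erase_of_mem (Finset.mem_univ _), Finset.card_univ,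
      ← Nat.card_eq_fintype_card, h.cardG, hcU]
    obtain ⟨m, rfl⟩ : ∃ m, q = m + 1 := ⟨q - 1, by omega⟩
    rw [Nat.add_sub_cancel]
    have : (m + 1) ^ 2 = (m + 1 + 1) * m + 1 := by ring
    omega
  have heq := Finset.eq_of_subset_of_card_le hsub hcard
  have hgU : g ∈ U := by
    rw [heq, Finset.mem_erase]
    exact ⟨hg, Finset.mem_univ _⟩
  rw [hU, Finset.mem_biUnion] at hgU
  obtain ⟨i, _, hi⟩ := hgU
  rw [Finset.mem_erase, mem_SF] at hi
  exact ⟨i, hi.2⟩

theorem full_pcp {p n : ℕ} (hp : p.Prime) (hn : 1 ≤ n) {G ι : Type} [Group G] [Finite ι]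
    (H : ι → Subgroup G) (h : IsPCP H (p ^ n)) (hι : Nat.card ι = p ^ n + 1) :
    (∀ x y : G, x * y = y * x) ∧ ∀ x : G, x ^ p = 1 := by
  classical
  have hfact : Fact p.Prime := ⟨hp⟩
  set q := p ^ n with hqdef
  have hq : 1 < q := Nat.one_lt_pow (by omega) hp.one_lt
  have : Fintype ι := Fintype.ofFinite ι
  have : Finite G := Nat.finite_of_card_ne_zero (by
    rw [h.cardG]
    positivity)
  have hcov := full_cover hq H h hι
  -- normality
  have hnorm : ∀ i, ∀ a ∈ H i, ∀ g : G, g * a * g⁻¹ ∈ H i := by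
    intro i a ha g
    obtain ⟨j, hj⟩ := hcov (g * a * g⁻¹)
    by_cases hij : i = j
    · rw [hij]
      exact hj
    · have := h.conj_disj (by omega) hij g a ha hj
      rw [this]
      simp
  have hcomm : ∀ i j, i ≠ j → ∀ a ∈ H i, ∀ b ∈ H j, a * b = b * a := by
    intro i j hij a ha b hb
    have h1 : a * b * a⁻¹ * b⁻¹ ∈ H i := by
      have := (H i).mul_mem ha (hnorm i a⁻¹ ((H i).inv_mem ha) b)
      simpa [mul_assoc] using this
    have h2 : a * b * a⁻¹ * b⁻¹ ∈ H j := (H j).mul_mem (hnorm j b hb a) ((H j).inv_mem hb)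
    have h3 := h.disj i j hij _ h1 h2
    have h4 : a * b = a * b * a⁻¹ * b⁻¹ * (b * a) := by group
    rw [h4, h3, one_mul]
  have hcent : ∀ i, ∀ a ∈ H i, ∀ g : G, a * g = g * a := by
    intro i a ha g
    have hc : 1 < (Finset.univ.erase i).card := by
      rw [Finset.card_erase_of_mem (Finset.mem_univ _), Finset.card_univ,
        ← Nat.card_eq_fintype_card, hι]
      omega
    obtain ⟨j, hj, k, hk, hjk⟩ := Finset.one_lt_card.1 hc
    rw [Finset.mem_erase] at hj hk
    obtain ⟨b, hb, c, hc, rfl⟩ := h.mul_eq (by omega) hjk g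
    have h1 := hcomm i j hj.1.symm a ha b hb
    have h2 := hcomm i k hk.1.symm a ha c hc
    rw [← mul_assoc, h1, mul_assoc, h2, mul_assoc]
  have hc : ∀ x y : G, x * y = y * x := by
    intro x y
    obtain ⟨i, hi⟩ := hcov x
    exact hcent i x hi y
  refine ⟨hc, ?_⟩
  intro x
  by_cases hx : x = 1
  · rw [hx, one_pow]
  obtain ⟨i, hi⟩ := hcov x
  have hc1 : 0 < (Finset.univ.erase i).card := by
    rw [Finset.card_erase_of_mem (Finset.mem_univ _), Finset.card_univ,
      ← Nat.card_eq_fintype_card, hι]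
    omega
  obtain ⟨j, hj⟩ := Finset.card_pos.1 hc1
  rw [Finset.mem_erase] at hj
  have hpd : p ∣ Nat.card (H j) := by
    rw [h.cardH j]
    exact dvd_pow_self p (by omega)
  obtain ⟨z, hz⟩ := exists_prime_orderOf_dvd_card' p hpd
  have hz1 : z ^ p = 1 := by
    rw [← hz]
    exact pow_orderOf_eq_one z
  have hzne : (z : G) ≠ 1 := by
    intro h1
    have h2 : z = 1 := Subtype.ext h1
    rw [h2, orderOf_one] at hz
    exact hp.one_lt.ne hz
  have hz1' : (z : G) ^ p = 1 := by
    rw [← SubmonoidClass.coe_pow, hz1]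
    rfl
  obtain ⟨k, hk⟩ := hcov (x * z)
  have hki : k ≠ i := by
    rintro rfl
    apply hzne
    apply h.disj j k hj.1 _ z.2
    have := (H k).mul_mem ((H k).inv_mem hi) hk
    simpa using this
  have hpow : (x * (z : G)) ^ p = x ^ p := by
    rw [(show Commute x (z : G) from hc x z).mul_pow, hz1', mul_one]
  apply h.disj k i hki _ _ ((H i).pow_mem hi p)
  rw [← hpow]
  exact (H k).pow_mem hk p

theorem t5_num {p e m : ℕ} (hp : p.Prime) (he : 1 ≤ e) (h : (p ^ e + 1) ∣ (p ^ m + 1)) :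
    ∃ a : ℕ, m = e * a ∧ Odd a := by
  set a := m / e with ha
  set r := m % e with hr
  have hm : m = e * a + r := (Nat.div_add_mod m e).symm
  have hre : r < e := Nat.mod_lt _ (by omega)
  have hlt : p ^ r < p ^ e := Nat.pow_lt_pow_right hp.one_lt hre
  have h1 : ((p : ℤ) ^ e + 1) ∣ (p : ℤ) ^ m + 1 := by exact_mod_cast h
  have h2 : ((p : ℤ) ^ e + 1) ∣ ((p : ℤ) ^ e) ^ a - (-1) ^ a := by
    have := sub_dvd_pow_sub_pow ((p : ℤ) ^ e) (-1) a
    rwa [sub_neg_eq_add] at this
  have h3 : ((p : ℤ) ^ e + 1) ∣ (-1) ^ a * (p : ℤ) ^ r + 1 := by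
    have h4 : (-1 : ℤ) ^ a * (p : ℤ) ^ r + 1 =
        ((p : ℤ) ^ m + 1) - (((p : ℤ) ^ e) ^ a - (-1) ^ a) * (p : ℤ) ^ r := by
      rw [hm, pow_add, pow_mul]
      ring
    rw [h4]
    exact dvd_sub h1 (dvd_mul_of_dvd_left h2 _)
  have hlt' : (p : ℤ) ^ r < (p : ℤ) ^ e := by exact_mod_cast hlt
  have hpos : (1 : ℤ) ≤ (p : ℤ) ^ r := by exact_mod_cast Nat.one_le_pow _ _ hp.pos
  rcases Nat.even_or_odd a with hev | hodd
  · exfalso
    rw [hev.neg_one_pow, one_mul] at h3
    have := Int.le_of_dvd (by linarith) h3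
    linarith
  · rw [hodd.neg_one_pow] at h3
    have h5 : ((p : ℤ) ^ e + 1) ∣ (p : ℤ) ^ r - 1 := by
      have : (p : ℤ) ^ r - 1 = -(-1 * (p : ℤ) ^ r + 1) := by ring
      rw [this]
      exact (dvd_neg).2 h3
    have h6 : (p : ℤ) ^ r - 1 = 0 := by
      exact Int.eq_zero_of_dvd_of_nonneg_of_lt (by linarith) (by linarith) h5
    have h7 : p ^ r = 1 := by
      have : (p : ℤ) ^ r = 1 := by linarith
      exact_mod_cast this
    have h8 : r = 0 := by
      rcases Nat.eq_zero_or_pos r with h | h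
      · exact h
      · exact absurd h7 (Nat.one_lt_pow (by omega) hp.one_lt).ne'
    exact ⟨a, by rw [hm, h8, add_zero], hodd⟩

end Pool.Agent.Helper90.ST
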